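import Pool.Agent.Lib.MP_c7af3c_ag.T2.Iface
import Pool.Agent.Lib.MP_c7af3c_ag.T2.H54.Basic

/-!
# MP_c7af3c_ag, project T2, module ANNB (helper52)
-/

set_option autoImplicit false

namespace Pool.Agent.T2.H52

open MvPolynomial Pool.Agent.Gen Pool.Agent.Sharp Pool.Agent.Edge

section gen

variable {Ω : Type} [Field Ω] {k : Subfield Ω} {Γ : Type} [LinearOrderedCommGroupWithZero Γ]
  {S : Sizes Ω k Γ} {n c : ℕ} {d : Fin c → ℕ} {D : DSys Ω n c d} {x : Fin (n + 1) → Ω}
  {j0 : Fin (n + 1)}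

/-- the column is `x_iv` times a bounded vector, modulo `x` -/
def Nf (S : Sizes Ω k Γ) (x : Fin (n + 1) → Ω) (g : S.V → Γ) (u : Fin (n + 1) → Ω) : Prop :=
  ∀ p iv, (∀ j, S.v p (x j) ≤ S.v p (x iv)) → ∃ N : Fin (n + 1) → Ω,
    u - x iv • N ∈ Submodule.span Ω {x} ∧ ∀ a, S.v p (N a) ≤ g p

theorem nf_W (h : Sit S D x j0) (a b : Fin (n + 1)) :
    Nf S x (fun p => S.MF D p * S.MF D p) (WT D x a b) :=
  fun p _ hle => h.red_W p hle a b

theorem nf_V (h : Sit S D x j0) (g : S.V → Γ) (G : TP Ω n c)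
    (hG : ∀ m, ∀ I ∈ (G m).support, I.degree = d m)
    (hb : ∀ p m, T2.G.CB (S.v p) (G m) (g p)) :
    Nf S x (fun p => g p * S.M p) (VT D x G) :=
  fun p _ hle => h.red_V p hle (g p) G hG (hb p)

/-- the 3x3 minors -/
def d3 {n : ℕ} (a b c : Fin (n + 1) → Ω) (i j l : Fin (n + 1)) : Ω :=
  a i * (b j * c l - b l * c j) - a j * (b i * c l - b l * c i) + a l * (b i * c j - b j * c i)

theorem d3_bound (g g' : S.V → Γ) {u u' : Fin (n + 1) → Ω} (hu : Nf S x g u)
    (hu' : Nf S x g' u') (p : S.V) (i j l : Fin (n + 1)) :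
    S.v p (d3 x u u' i j l) ≤ S.nm x p ^ 3 * (g p * g' p) := by
  obtain ⟨iv, h1, h2⟩ := S.exists_nm x p
  obtain ⟨N, hN, hN'⟩ := hu p iv h2
  obtain ⟨N2, hN2, hN2'⟩ := hu' p iv h2
  obtain ⟨t, ht⟩ := Submodule.mem_span_singleton.1 hN
  obtain ⟨t', ht'⟩ := Submodule.mem_span_singleton.1 hN2
  have h4 : ∀ a, u a = t * x a + x iv * N a := by
    intro a
    have := congrFun ht a
    rw [Pi.smul_apply, Pi.sub_apply, Pi.smul_apply, smul_eq_mul, smul_eq_mul] at this
    rw [this]
    ring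
  have h5 : ∀ a, u' a = t' * x a + x iv * N2 a := by
    intro a
    have := congrFun ht' a
    rw [Pi.smul_apply, Pi.sub_apply, Pi.smul_apply, smul_eq_mul, smul_eq_mul] at this
    rw [this]
    ring
  have h3 : d3 x u u' i j l = x iv ^ 2 * (x i * (N j * N2 l - N l * N2 j) -
      x j * (N i * N2 l - N l * N2 i) + x l * (N i * N2 j - N j * N2 i)) := by
    unfold d3
    rw [h4, h4, h4, h5, h5, h5]
    ring
  have h6 : ∀ a b, S.v p (N a * N2 b - N b * N2 a) ≤ g p * g' p := by
    intro a b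
    refine (Valuation.map_sub _ _ _).trans (max_le ?_ ?_)
    · rw [map_mul]
      exact mul_le_mul' (hN' a) (hN2' b)
    · rw [map_mul]
      exact mul_le_mul' (hN' b) (hN2' a)
  have h7 : ∀ e a b, S.v p (x e * (N a * N2 b - N b * N2 a)) ≤ S.nm x p * (g p * g' p) := by
    intro e a b
    rw [map_mul]
    exact mul_le_mul' (S.le_nm x p e) (h6 a b)
  rw [h3, map_mul, map_pow, ← h1, show (3 : ℕ) = 2 + 1 from rfl, pow_add, pow_one, mul_assoc]
  refine mul_le_mul' le_rfl ((Valuation.map_add _ _ _).trans (max_le ?_ (h7 l i j)))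
  exact (Valuation.map_sub _ _ _).trans (max_le (h7 i j l) (h7 j i l))

/-- a bound of the coefficients of a tuple over `k` -/
noncomputable def cg (S : Sizes Ω k Γ) (w : TP Ω n c) (p : S.V) : Γ :=
  ∏ m, ∏ I ∈ (w m).support, S.sz (coeff I (w m)) p

theorem one_le_cg (S : Sizes Ω k Γ) (w : TP Ω n c) (p : S.V) : 1 ≤ cg S w p :=
  Finset.one_le_prod' fun _ _ => Finset.one_le_prod' fun _ _ => S.one_le_sz _ p

theorem small_cg (S : Sizes Ω k Γ) (w : TP Ω n c) (hk : ∀ m I, coeff I (w m) ∈ k) :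
    S.Small (cg S w) :=
  Sizes.Small.prod Finset.univ fun m _ =>
    Sizes.Small.prod (w m).support fun I _ => S.small_sz (hk m I)

theorem CB_cg (S : Sizes Ω k Γ) (w : TP Ω n c) (p : S.V) (m : Fin c) :
    T2.G.CB (S.v p) (w m) (cg S w p) := by
  classical
  intro I
  by_cases hI : I ∈ (w m).support
  · calc S.v p (coeff I (w m)) ≤ S.sz (coeff I (w m)) p := S.le_sz _ p
      _ ≤ ∏ I ∈ (w m).support, S.sz (coeff I (w m)) p :=
        Finset.single_le_prod' (f := fun I => S.sz (coeff I (w m)) p)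
          (fun i _ => S.one_le_sz _ p) hI
      _ ≤ ∏ m, ∏ I ∈ (w m).support, S.sz (coeff I (w m)) p :=
        Finset.single_le_prod' (f := fun m => ∏ I ∈ (w m).support, S.sz (coeff I (w m)) p)
          (fun i _ => Finset.one_le_prod' fun _ _ => S.one_le_sz _ p) (Finset.mem_univ m)
  · rw [notMem_support_iff.1 hI, map_zero]
    exact zero_le

theorem CB_Xpow {Γ : Type} [LinearOrderedCommGroupWithZero Γ] (v : Valuation Ω Γ) {σ : Type}
    (i : σ) (r : ℕ) : T2.G.CB v (X i ^ r : MvPolynomial σ Ω) 1 := by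
  classical
  intro I
  rw [X_pow_eq_monomial, coeff_monomial]
  split_ifs
  · rw [map_one]
  · rw [map_zero]
    exact zero_le

theorem deg_mul (r : ℕ) (w : TP Ω n c) (hw : ∀ m, ∀ I ∈ (w m).support, I.degree + r = d m)
    {H : MvPolynomial (Fin (n + 1)) Ω} (hH : H.IsHomogeneous r) (m : Fin c)
    (I : Fin (n + 1) →₀ ℕ) (hI : I ∈ (mulT w H m).support) : I.degree = d m := by
  classical
  have h1 := support_mul (w m) H hI
  obtain ⟨I1, hI1, I2, hI2, rfl⟩ := Finset.mem_add.1 h1
  have h2 := hw m I1 hI1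
  have h3 : I2.degree = r := by
    rw [Finsupp.degree_eq_weight_one]
    exact hH (mem_support_iff.1 hI2)
  have h4 : (I1 + I2).degree = I1.degree + I2.degree := map_add _ _ _
  rw [h4, h3]
  exact h2

/-- the form `X_i^r - x_i^r X_j0^r` -/
theorem pow_form (hj0 : x j0 = 1) (r : ℕ) (i : Fin (n + 1)) :
    (X i ^ r - C (x i ^ r) * X j0 ^ r : MvPolynomial (Fin (n + 1)) Ω).IsHomogeneous r ∧
    eval x (X i ^ r - C (x i ^ r) * X j0 ^ r : MvPolynomial (Fin (n + 1)) Ω) = 0 := by
  constructor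
  · refine (isHomogeneous_X_pow i r).sub ?_
    have h := (isHomogeneous_C (Fin (n + 1)) (x i ^ r)).mul (isHomogeneous_X_pow (R := Ω) j0 r)
    rwa [zero_add] at h
  · simp only [map_sub, map_mul, map_pow, eval_X, eval_C, hj0, one_pow, mul_one, sub_self]

theorem VT_pow (r : ℕ) (w : TP Ω n c) (i : Fin (n + 1)) :
    VT D x (mulT w (X i ^ r - C (x i ^ r) * X j0 ^ r)) =
      VT D x (mulT w (X i ^ r)) - x i ^ r • VT D x (mulT w (X j0 ^ r)) := by
  rw [← map_smul, ← map_sub]
  congr 1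
  funext m
  rw [Pi.sub_apply, Pi.smul_apply, smul_eq_C_mul]
  unfold mulT
  ring

/-- the power trick -/
theorem pow_trick (h : Sit S D x j0) (r e : ℕ) (hr : e < r) (g : S.V → Γ) (hg : S.Small g)
    (y : Ω) (hy : ∀ i p, S.v p (x i ^ r * y) ≤ S.nm x p ^ e * g p) : y = 0 := by
  by_contra hy0
  obtain ⟨i0, hi0⟩ := h.xk
  refine hi0 ((S.s01 h.hj0 hy0 (hg.mono fun p => ?_)).2 i0)
  obtain ⟨i, h1, -⟩ := S.exists_nm x p
  have h2 := hy i p
  rw [map_mul, map_pow, ← h1] at h2
  have h3 := S.one_le_nm x p h.hj0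
  have h4 : S.nm x p ^ e ≠ 0 := pow_ne_zero _ (lt_of_lt_of_le zero_lt_one h3).ne'
  have h5 : S.nm x p ^ e * (S.v p y * S.nm x p) ≤ S.nm x p ^ e * g p := by
    refine le_trans ?_ h2
    obtain ⟨q, rfl⟩ := Nat.exists_eq_add_of_lt hr
    have h6 : S.nm x p ^ (e + q + 1) * S.v p y =
        S.nm x p ^ e * (S.v p y * S.nm x p) * S.nm x p ^ q := by
      rw [pow_succ, pow_add]
      ac_rfl
    rw [h6]
    calc S.nm x p ^ e * (S.v p y * S.nm x p) =
        S.nm x p ^ e * (S.v p y * S.nm x p) * 1 := (mul_one _).symm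
      _ ≤ _ := mul_le_mul' le_rfl (one_le_pow₀ h3)
  have h7 : 0 < S.nm x p ^ e := zero_lt_iff.2 h4
  exact (mul_le_mul_iff_right₀ h7).1 h5

/-- general form of ANNB without extra columns -/
theorem annb0 (h : Sit S D x j0) (r : ℕ) (hr : 3 ≤ r) (w : TP Ω n c)
    (hw : ∀ m, ∀ I ∈ (w m).support, I.degree + r = d m) (hk : ∀ m I, coeff I (w m) ∈ k)
    (hV : ∀ H : MvPolynomial (Fin (n + 1)) Ω, H.IsHomogeneous r → eval x H = 0 →
      VT D x (mulT w H) ∈ Submodule.span Ω {x}) (m : Fin c) : eval x (w m) = 0 := by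
  have hj := h.hj0
  -- `x ^ V(w X_j0^r) = 0`
  have h1 : ∀ q, plu x (VT D x (mulT w (X j0 ^ r))) j0 q = 0 := by
    intro q
    refine pow_trick h r 2 (by omega) (fun p => cg S w p * S.M p)
      ((small_cg S w hk).mul S.small_M) _ fun i p => ?_
    have h2 := hV _ (pow_form hj r i).1 (pow_form hj r i).2
    rw [VT_pow] at h2
    obtain ⟨t, ht⟩ := Submodule.mem_span_singleton.1 h2
    have h3 : x i ^ r * plu x (VT D x (mulT w (X j0 ^ r))) j0 q =
        plu x (VT D x (mulT w (X i ^ r))) j0 q := by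
      have h4 : ∀ a, VT D x (mulT w (X i ^ r)) a =
          t * x a + x i ^ r * VT D x (mulT w (X j0 ^ r)) a := by
        intro a
        have := congrFun ht a
        rw [Pi.smul_apply, Pi.sub_apply, Pi.smul_apply, smul_eq_mul, smul_eq_mul] at this
        rw [this]
        ring
      unfold plu
      rw [h4, h4]
      ring
    rw [h3]
    have h5 := h.v_wedge_le p (cg S w p) (mulT w (X i ^ r))
      (fun m I hI => deg_mul r w hw (isHomogeneous_X_pow i r) m I hI)
      (fun m => by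
        have := (CB_cg S w p m).mul (S.v p) (CB_Xpow (S.v p) i r)
        rwa [mul_one] at this) j0 q
    rw [mul_comm] at h5
    exact h5
  have h2 : VT D x (mulT w (X j0 ^ r)) = VT D x (mulT w (X j0 ^ r)) j0 • x := by
    funext q
    have h3 := h1 q
    unfold plu at h3
    rw [hj, one_mul, sub_eq_zero] at h3
    rw [Pi.smul_apply, smul_eq_mul, h3, mul_comm]
  have h3 := grad_VT D x h.h0 (mulT w (X j0 ^ r)) (fun m I hI => by
    have := deg_mul r w hw (isHomogeneous_X_pow j0 r) m I (mem_support_iff.2 hI)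
    rw [Finsupp.degree_eq_weight_one] at this
    exact this) m
  rw [h2] at h3
  have h4 : ∑ p, eval x (pderiv p (D.F m)) * (VT D x (mulT w (X j0 ^ r)) j0 • x) p = 0 := by
    have h5 := grad_x D x h.h0 m
    have h6 : ∑ p, eval x (pderiv p (D.F m)) * (VT D x (mulT w (X j0 ^ r)) j0 • x) p =
        VT D x (mulT w (X j0 ^ r)) j0 * ∑ p, eval x (pderiv p (D.F m)) * x p := by
      rw [Finset.mul_sum]
      refine Finset.sum_congr rfl fun p _ => ?_
      rw [Pi.smul_apply, smul_eq_mul]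
      ring
    rw [h6, h5, mul_zero]
  rw [h4] at h3
  have h5 : eval x (mulT w (X j0 ^ r) m) = 0 := by
    rw [← neg_eq_zero]
    exact h3.symm
  unfold mulT at h5
  rwa [map_mul, map_pow, eval_X, hj, one_pow, mul_one] at h5

/-- general form of ANNB with one extra column -/
theorem annb1 (h : Sit S D x j0) (r : ℕ) (hr : 4 ≤ r) (w : TP Ω n c)
    (hw : ∀ m, ∀ I ∈ (w m).support, I.degree + r = d m) (hk : ∀ m I, coeff I (w m) ∈ k)
    (η : Fin (n + 1) → Ω) (g : S.V → Γ) (hg : S.Small g) (hη : Nf S x g η)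
    (hli : LinearIndependent Ω ![x, η])
    (hgr : ∀ m, ∑ p, eval x (pderiv p (D.F m)) * η p = 0)
    (hV : ∀ H : MvPolynomial (Fin (n + 1)) Ω, H.IsHomogeneous r → eval x H = 0 →
      VT D x (mulT w H) ∈ Submodule.span Ω {x, η}) (m : Fin c) : eval x (w m) = 0 := by
  have hj := h.hj0
  obtain ⟨i1, hi1⟩ := exists_plu_ne hli (show x j0 ≠ 0 by rw [hj]; exact one_ne_zero)
  set u := VT D x (mulT w (X j0 ^ r)) with hu
  have h1 : ∀ q, d3 x η u j0 i1 q = 0 := by
    intro q
    refine pow_trick h r 3 (by omega) (fun p => g p * (cg S w p * S.M p))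
      (hg.mul ((small_cg S w hk).mul S.small_M)) _ fun i p => ?_
    have h2 := hV _ (pow_form hj r i).1 (pow_form hj r i).2
    rw [VT_pow] at h2
    obtain ⟨t, t', ht⟩ := Submodule.mem_span_pair.1 h2
    have h3 : x i ^ r * d3 x η u j0 i1 q = d3 x η (VT D x (mulT w (X i ^ r))) j0 i1 q := by
      have h4 : ∀ a, VT D x (mulT w (X i ^ r)) a = t * x a + t' * η a + x i ^ r * u a := by
        intro a
        have := congrFun ht a
        simp only [Pi.add_apply, Pi.smul_apply, Pi.sub_apply, smul_eq_mul] at this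
        rw [this]
        ring
      unfold d3
      rw [h4, h4, h4]
      ring
    rw [h3]
    have h5 : Nf S x (fun p => cg S w p * S.M p) (VT D x (mulT w (X i ^ r))) :=
      nf_V h (cg S w) _ (fun m I hI => deg_mul r w hw (isHomogeneous_X_pow i r) m I hI)
        fun p m => by
          have := (CB_cg S w p m).mul (S.v p) (CB_Xpow (S.v p) i r)
          rwa [mul_one] at this
    exact d3_bound g _ hη h5 p j0 i1 q
  obtain ⟨A, B, hAB⟩ : ∃ A B : Ω, ∀ q, u q = A * x q + B * η q := by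
    refine ⟨-(plu η u j0 i1) / plu x η j0 i1, plu x u j0 i1 / plu x η j0 i1, fun q => ?_⟩
    have h3 := h1 q
    unfold d3 at h3
    have h4 : plu x η j0 i1 * u q = -(plu η u j0 i1) * x q + plu x u j0 i1 * η q := by
      unfold plu
      linear_combination h3
    field_simp
    linear_combination h4
  have h3 := grad_VT D x h.h0 (mulT w (X j0 ^ r)) (fun m I hI => by
    have := deg_mul r w hw (isHomogeneous_X_pow j0 r) m I (mem_support_iff.2 hI)
    rw [Finsupp.degree_eq_weight_one] at this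
    exact this) m
  rw [← hu] at h3
  have h4 : ∑ p, eval x (pderiv p (D.F m)) * u p = 0 := by
    have h5 := grad_x D x h.h0 m
    have h6 : ∑ p, eval x (pderiv p (D.F m)) * u p =
        A * (∑ p, eval x (pderiv p (D.F m)) * x p) +
          B * ∑ p, eval x (pderiv p (D.F m)) * η p := by
      rw [Finset.mul_sum, Finset.mul_sum, ← Finset.sum_add_distrib]
      refine Finset.sum_congr rfl fun p _ => ?_
      rw [hAB]
      ring
    rw [h6, h5, hgr m, mul_zero, mul_zero, add_zero]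
  rw [h4] at h3
  have h5 : eval x (mulT w (X j0 ^ r) m) = 0 := by
    rw [← neg_eq_zero]
    exact h3.symm
  unfold mulT at h5
  rwa [map_mul, map_pow, eval_X, hj, one_pow, mul_one] at h5

end gen

theorem VT_one {Ω : Type} [Field Ω] (D : D6 Ω) (x : Fin (4 + 1) → Ω) (G : TP Ω 4 1) :
    VT D x G = D.V x 0 (G 0) := by
  rw [VT_apply, Fin.sum_univ_one]

/-- Module ANNB. -/
theorem annb : AnnbStatement := by
  intro Ω _ _ k Γ _ S D x j0 h s η hs hη hli w hw hV
  have hdeg : ∀ m : Fin 1, ∀ I ∈ ((fun _ => w : TP Ω 4 1) m).support, I.degree + 4 = 6 := by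
    intro m I hI
    have h3 : I.degree = 2 := by
      rw [Finsupp.degree_eq_weight_one]
      exact hw.1 (mem_support_iff.1 hI)
    omega
  obtain rfl | rfl : s = 0 ∨ s = 1 := by omega
  · refine annb0 h 4 (by omega) (fun _ => w) hdeg (fun _ => hw.2) (fun H hH hH0 => ?_) 0
    have h1 := hV H hH hH0
    rw [VT_one]
    have h2 : Hs x η = Submodule.span Ω {x} := by
      unfold Hs
      rw [Set.range_eq_empty]
      simp
    rw [h2] at h1
    exact h1
  · have h2 : Hs x η = Submodule.span Ω {x, η 0} := by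
      unfold Hs
      congr 1
      ext u
      simp [eq_comm]
    have hli2 : LinearIndependent Ω ![x, η 0] := by
      have h3 := hli.comp (![Sum.inl (), Sum.inr 0] : Fin 2 → Unit ⊕ Fin 1) (by
        intro a b hab
        fin_cases a <;> fin_cases b <;> simp_all)
      convert h3 using 1
      funext i
      fin_cases i <;> rfl
    obtain ⟨g, hg, hnf, hgr⟩ : ∃ g : S.V → Γ, S.Small g ∧ Nf S x g (η 0) ∧
        ∀ m, ∑ p, eval x (pderiv p (D.F m)) * η 0 p = 0 := by
      rcases hη 0 with ⟨p, q, hpq⟩ | ⟨G, hG, hG0, hGe⟩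
      · rw [hpq]
        exact ⟨_, h.small_MF.mul h.small_MF, nf_W h p q, fun m => grad_WT D x h.h0 p q m⟩
      · have h4 : η 0 = VT D x (fun _ => G) := by
          rw [VT_one, hGe]
        rw [h4]
        refine ⟨_, (small_cg S (fun _ => G : TP Ω 4 1) fun _ => hG.2).mul S.small_M,
          nf_V h (cg S (fun _ => G : TP Ω 4 1)) _ (fun m I hI => ?_)
            (fun p m => CB_cg S (fun _ => G : TP Ω 4 1) p m), fun m => ?_⟩
        · rw [Finsupp.degree_eq_weight_one]
          exact hG.1 (mem_support_iff.1 hI)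
        · rw [grad_VT D x h.h0 _ (fun _ => hG.1) m, hG0, neg_zero]
    refine annb1 h 4 (by omega) (fun _ => w) hdeg (fun _ => hw.2) (η 0) g hg hnf hli2 hgr
      (fun H hH hH0 => ?_) 0
    have h1 := hV H hH hH0
    rw [VT_one]
    rw [h2] at h1
    exact h1

end Pool.Agent.T2.H52
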