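import Pool.Agent.Lib.MP_c7af3c_ag.T2.Iface
import Pool.Agent.Lib.MP_c7af3c_ag.LINES.H19.Htl
import Pool.Agent.Lib.MP_c7af3c_ag.LINES.H19.Lsur

/-!
# MP_c7af3c_ag, project T2, module HL5S (helper52)
-/

set_option autoImplicit false

namespace Pool.Agent.T2.H52

open MvPolynomial Pool.Agent.Gen Pool.Agent.Sharp Pool.Agent.Lines Pool.Agent.Lines.H19

/-- Module HL5S. -/
theorem hl5s : Hl5Statement := by
  refine ⟨4 * 4 + 2, ?_⟩
  intro L _ _ D hcomm x y hxy h0 hfin S hS B hB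
  have h4 := four L 4 1 (fun _ => 6) D x y hxy
  obtain ⟨q, hq⟩ := Nat.exists_eq_add_of_le h4
  have hq1 : q ≤ 1 := by omega
  have h1 := htlr D x y hxy q hq 6 (fun _ => le_rfl) (by
    rw [Fin.sum_univ_one]
    omega) (by
    intro r hr
    rw [Fin.sum_univ_one] at hr
    rw [Fin.sum_univ_one]
    omega) S hS B hB
  exact_mod_cast h1

end Pool.Agent.T2.H52
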