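import Pool.Agent.Lib.MP_c7af3c_ag.EDGE.H52.Ultra

/-!
# MP_c7af3c_ag, project T2, module ULTRA2, part 3: the variation space of a line in the
ultraproduct (helper52)
-/

set_option autoImplicit false

namespace Pool.Agent.T2.H52

open Filter MvPolynomial Pool.Agent.Gen Pool.Agent.Sharp Pool.Agent.Edge Pool.Agent.Edge.H52
open Pool.Agent.Lines

/-- the types of the columns -/
abbrev CT (n : ℕ) : Type := ((Fin 2 × Fin 2) ⊕ (Fin (n + 1) × Fin (n + 1))) ⊕ Unit

/-- the vector is a column of the given type -/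
def IsCol {L : Type} [Field L] {n c : ℕ} {d : Fin c → ℕ} (D : DSys L n c d)
    (x y : Fin (n + 1) → L) (u : Fin 2 × Fin (n + 1) → L) : CT n → Prop
  | Sum.inl (Sum.inl ab) => u = PP x y ab
  | Sum.inl (Sum.inr pq) => u = WW D x y pq.1 pq.2
  | Sum.inr _ => ∃ G, Hom d G ∧ OnLine x y G ∧ u = VV D x y G

theorem exists_cols {L : Type} [Field L] {n c : ℕ} {d : Fin c → ℕ} (D : DSys L n c d)
    (x y : Fin (n + 1) → L) (N : ℕ) (h : N ≤ Module.finrank L (SL D x y)) :
    ∃ t : Fin N → CT n, ∃ f : Fin N → (Fin 2 × Fin (n + 1) → L),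
      LinearIndependent L f ∧ ∀ i, IsCol D x y (f i) (t i) := by
  obtain ⟨f, h1, -, h3⟩ := Submodule.exists_fun_fin_finrank_span_eq L
    (Set.range (PP x y) ∪ {u | ∃ p q, u = WW D x y p q} ∪
    {u | ∃ G, Hom d G ∧ OnLine x y G ∧ u = VV D x y G})
  have h4 : ∀ i, ∃ t : CT n, IsCol D x y (f i) t := by
    intro i
    rcases h1 i with (⟨ab, h⟩ | ⟨p, q, h⟩) | h
    · exact ⟨Sum.inl (Sum.inl ab), h.symm⟩
    · exact ⟨Sum.inl (Sum.inr (p, q)), h⟩
    · exact ⟨Sum.inr (), h⟩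
  choose t ht using h4
  exact ⟨fun i => t (Fin.castLE h i), fun i => f (Fin.castLE h i),
    h3.comp _ (Fin.castLE_injective h), fun i => ht _⟩

section

variable {L : ℕ → Type} [∀ ν, Field (L ν)] {n c : ℕ} {d : Fin c → ℕ}
  (D : ∀ ν, DSys (L ν) n c d) (x y : Fin (n + 1) → ∀ ν, L ν)

theorem PP_om (ab : Fin 2 × Fin 2) (j : Fin 2 × Fin (n + 1)) :
    PP (qv x) (qv y) ab j = qm L fun ν => PP (cv x ν) (cv y ν) ab j := by
  unfold PP
  split_ifs
  · rfl
  · rfl
  · exact (map_zero (qm L)).symm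

theorem WW_om (p q : Fin (n + 1)) (j : Fin 2 × Fin (n + 1)) :
    WW (omSys D) (qv x) (qv y) p q j = qm L fun ν => WW (D ν) (cv x ν) (cv y ν) p q j := by
  unfold WW pr
  split_ifs
  · exact WT_om D x p q j.2
  · exact WT_om D y p q j.2

theorem VV_om (G : TR L n c) (j : Fin 2 × Fin (n + 1)) :
    VV (omSys D) (qv x) (qv y) (tq G) j =
      qm L fun ν => VV (D ν) (cv x ν) (cv y ν) (tc G ν) j := by
  unfold VV pr
  split_ifs
  · exact VT_om D x G j.2
  · exact VT_om D y G j.2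

theorem lineP_om (G : MvPolynomial (Fin (n + 1)) (∀ ν, L ν))
    (h : ∀ᶠ ν in UF, lineP (map (ev L ν) G) (cv x ν) (cv y ν) = 0) :
    lineP (map (qm L) G) (qv x) (qv y) = 0 := by
  change lineP (map (qm L) G) (fun j => qm L (x j)) (fun j => qm L (y j)) = 0
  rw [map_lineR]
  ext k
  rw [Polynomial.coeff_map, Polynomial.coeff_zero, qm_zero]
  filter_upwards [h] with ν hν
  have h6 := map_lineR x G y (ev L ν)
  have h7 : lineP (map (ev L ν) G) (fun j => ev L ν (x j)) (fun j => ev L ν (y j)) = 0 := hν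
  rw [h7] at h6
  have h8 := congrArg (fun P => Polynomial.coeff P k) h6
  simp only [Polynomial.coeff_zero, Polynomial.coeff_map] at h8
  exact h8.symm

theorem lift_col (t : CT n) (f : ∀ ν, Fin 2 × Fin (n + 1) → L ν)
    (h : ∀ᶠ ν in UF, IsCol (D ν) (cv x ν) (cv y ν) (f ν) t) :
    (fun j => qm L (fun ν => f ν j)) ∈ SL (omSys D) (qv x) (qv y) := by
  classical
  rcases t with (ab | pq) | u
  · refine Submodule.subset_span (Or.inl (Or.inl ⟨ab, ?_⟩))
    funext j
    rw [PP_om, qm_eq]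
    filter_upwards [h] with ν hν
    exact congrFun (show f ν = PP (cv x ν) (cv y ν) ab from hν).symm j
  · refine Submodule.subset_span (Or.inl (Or.inr ⟨pq.1, pq.2, ?_⟩))
    funext j
    rw [WW_om, qm_eq]
    filter_upwards [h] with ν hν
    exact congrFun (show f ν = WW (D ν) (cv x ν) (cv y ν) pq.1 pq.2 from hν) j
  · have h1 : ∀ ν, ∃ G : Fin c → MvPolynomial (Fin (n + 1)) (L ν), Hom d G ∧
        (IsCol (D ν) (cv x ν) (cv y ν) (f ν) (Sum.inr u) →
          OnLine (cv x ν) (cv y ν) G ∧ f ν = VV (D ν) (cv x ν) (cv y ν) G) := by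
      intro ν
      by_cases hν : IsCol (D ν) (cv x ν) (cv y ν) (f ν) (Sum.inr u)
      · obtain ⟨G, h2, h3, h4⟩ : ∃ G, Hom d G ∧ OnLine (cv x ν) (cv y ν) G ∧
          f ν = VV (D ν) (cv x ν) (cv y ν) G := hν
        exact ⟨G, h2, fun _ => ⟨h3, h4⟩⟩
      · exact ⟨0, fun m => isHomogeneous_zero _ _ _, fun h => absurd h hν⟩
    choose G hG hG2 using h1
    set GR : TR L n c := fun m => piP (Tdeg n (d m)) fun ν => G ν m with hGR
    have h2 : ∀ ν, tc GR ν = G ν := by
      intro ν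
      funext m
      exact map_ev_piP _ _ (fun ν => supp_Tdeg (hG ν m)) ν
    refine Submodule.subset_span (Or.inr ⟨tq GR, ?_, ?_, ?_⟩)
    · intro m
      refine IsHomogeneous.map ?_ (qm L)
      refine IsHomogeneous.sum _ _ _ fun I hI => ?_
      exact isHomogeneous_monomial _ (mem_Tdeg.1 hI)
    · intro m
      refine lineP_om x y (GR m) ?_
      filter_upwards [h] with ν hν
      have h3 : map (ev L ν) (GR m) = G ν m := congrFun (h2 ν) m
      rw [h3]
      exact (hG2 ν hν).1 m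
    · funext j
      rw [VV_om, qm_eq]
      filter_upwards [h] with ν hν
      rw [h2 ν]
      exact congrFun (hG2 ν hν).2 j

theorem finrank_om (N : ℕ) (h : ∀ᶠ ν in UF,
    N ≤ Module.finrank (L ν) (SL (D ν) (cv x ν) (cv y ν))) :
    N ≤ Module.finrank (Om L) (SL (omSys D) (qv x) (qv y)) := by
  classical
  have h1 : ∀ᶠ ν in UF, ∃ t : Fin N → CT n, ∃ f : Fin N → (Fin 2 × Fin (n + 1) → L ν),
      LinearIndependent (L ν) f ∧ ∀ i, IsCol (D ν) (cv x ν) (cv y ν) (f i) (t i) := by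
    filter_upwards [h] with ν hν
    exact exists_cols (D ν) (cv x ν) (cv y ν) N hν
  obtain ⟨t, ht⟩ := uf_choice h1
  have h2 : ∀ ν, ∃ f : Fin N → (Fin 2 × Fin (n + 1) → L ν),
      (∃ f : Fin N → (Fin 2 × Fin (n + 1) → L ν), LinearIndependent (L ν) f ∧
        ∀ i, IsCol (D ν) (cv x ν) (cv y ν) (f i) (t i)) →
      LinearIndependent (L ν) f ∧ ∀ i, IsCol (D ν) (cv x ν) (cv y ν) (f i) (t i) := by
    intro ν
    by_cases hν : ∃ f : Fin N → (Fin 2 × Fin (n + 1) → L ν), LinearIndependent (L ν) f ∧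
        ∀ i, IsCol (D ν) (cv x ν) (cv y ν) (f i) (t i)
    · obtain ⟨f, hf⟩ := hν
      exact ⟨f, fun _ => hf⟩
    · exact ⟨0, fun h => absurd h hν⟩
  choose f hf using h2
  have h3 : LinearIndependent (Om L) (fun i => fun j => qm L (fun ν => f ν i j)) := by
    refine li_om (fun i j ν => f ν i j) ?_
    filter_upwards [ht] with ν hν
    exact (hf ν hν).1
  have h4 : ∀ i, (fun j => qm L (fun ν => f ν i j)) ∈ SL (omSys D) (qv x) (qv y) := by
    intro i
    refine lift_col D x y (t i) (fun ν => f ν i) ?_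
    filter_upwards [ht] with ν hν
    exact (hf ν hν).2 i
  have h5 : LinearIndependent (Om L) (fun i => (⟨_, h4 i⟩ : SL (omSys D) (qv x) (qv y))) := by
    refine LinearIndependent.of_comp (Submodule.subtype _) ?_
    exact h3
  simpa using h5.fintype_card_le_finrank

end

end Pool.Agent.T2.H52
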