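import Pool.Agent.Lib.MP_c7af3c_ag.EDGE.H52.UProd
import Mathlib.Order.Filter.FilterProduct
import Mathlib.Order.Filter.Germ.OrderedMonoid

/-!
# MP_c7af3c_ag, project T2, module ULTRA2, part 1: the value group (helper52)
-/

set_option autoImplicit false

namespace Pool.Agent.T2.H52

open Filter WithZero Pool.Agent.Edge.H52

/-- the value group -/
abbrev Ga : Type := Germ UF ℤᵐ⁰

noncomputable instance instLO : LinearOrder Ga := Germ.instLinearOrder

noncomputable instance instGa : LinearOrderedCommGroupWithZero Ga where
  __ := (Germ.instCommMonoid : CommMonoid Ga)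
  __ := (Germ.instGroupWithZero : GroupWithZero Ga)
  __ := instLO
  __ := (Germ.instOrderBot : OrderBot Ga)
  mul_lt_mul_of_pos_left := by
    intro x hx y z hyz
    induction x using Germ.inductionOn with | h f =>
    induction y using Germ.inductionOn with | h g =>
    induction z using Germ.inductionOn with | h h =>
    refine Germ.coe_lt.2 ?_
    filter_upwards [Germ.coe_lt.1 hx, Germ.coe_lt.1 hyz] with ν h1 h2
    exact mul_lt_mul_of_pos_left h2 h1
  isBot_zero := by
    intro x
    induction x using Germ.inductionOn with | h f =>
    exact Germ.coe_le.2 (Eventually.of_forall fun ν => zero_le)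

end Pool.Agent.T2.H52
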