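import Pool.Agent.Lib.MP_c7af3c_ag.T2.H52.Ga
import Pool.Agent.Lib.MP_c7af3c_ag.T2.Sizes
import Pool.Agent.Lib.MP_c7af3c_ag.EDGE.H52.Ultra

/-!
# MP_c7af3c_ag, project T2, module ULTRA2, part 2: the places of the ultraproduct (helper52)
-/

set_option autoImplicit false

namespace Pool.Agent.T2.H52

open Filter WithZero Pool.Agent.Gen Pool.Agent.Sharp Pool.Agent.Edge Pool.Agent.Edge.H52

/-- the class of a sequence of sizes -/
noncomputable def ga : (ℕ → ℤᵐ⁰) →* Ga where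
  toFun f := ((f : ℕ → ℤᵐ⁰) : Germ UF ℤᵐ⁰)
  map_one' := rfl
  map_mul' _ _ := rfl

theorem ga_le {f g : ℕ → ℤᵐ⁰} : ga f ≤ ga g ↔ ∀ᶠ ν in UF, f ν ≤ g ν := Germ.coe_le

theorem ga_eq {f g : ℕ → ℤᵐ⁰} : ga f = ga g ↔ ∀ᶠ ν in UF, f ν = g ν := Germ.coe_eq

theorem ga_max (f g : ℕ → ℤᵐ⁰) : ga (fun ν => max (f ν) (g ν)) = max (ga f) (ga g) := by
  rcases uf_em (fun ν => f ν ≤ g ν) with h | h
  · rw [max_eq_right (ga_le.2 h), ga_eq]
    filter_upwards [h] with ν hν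
    exact max_eq_right hν
  · have h1 : ∀ᶠ ν in UF, g ν ≤ f ν := by
      filter_upwards [h] with ν hν
      exact (not_le.1 hν).le
    rw [max_eq_left (ga_le.2 h1), ga_eq]
    filter_upwards [h1] with ν hν
    exact max_eq_left hν

section

variable {L : ℕ → Type} [∀ ν, Field (L ν)] (S : ∀ ν, PlaceSys (L ν))

/-- the size at a sequence of places -/
noncomputable def sz (p : ∀ ν, (S ν).V) (y : Om L) : Ga :=
  ga fun ν => (S ν).v (p ν) ((qm_surj L y).choose ν)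

theorem sz_qm (p : ∀ ν, (S ν).V) (f : ∀ ν, L ν) :
    sz S p (qm L f) = ga fun ν => (S ν).v (p ν) (f ν) := by
  unfold sz
  rw [ga_eq]
  filter_upwards [qm_eq.1 (qm_surj L (qm L f)).choose_spec] with ν hν
  rw [hν]

/-- the valuation at a sequence of places -/
noncomputable def uval (p : ∀ ν, (S ν).V) : Valuation (Om L) Ga where
  toFun := sz S p
  map_zero' := by
    rw [← map_zero (qm L), sz_qm]
    refine ga_eq.2 (Eventually.of_forall fun ν => ?_)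
    exact map_zero ((S ν).v (p ν))
  map_one' := by
    rw [← map_one (qm L), sz_qm, ← map_one ga]
    refine ga_eq.2 (Eventually.of_forall fun ν => ?_)
    exact map_one ((S ν).v (p ν))
  map_mul' := by
    intro x y
    obtain ⟨f, rfl⟩ := qm_surj L x
    obtain ⟨g, rfl⟩ := qm_surj L y
    rw [← map_mul, sz_qm, sz_qm, sz_qm, ← map_mul]
    refine ga_eq.2 (Eventually.of_forall fun ν => ?_)
    exact map_mul ((S ν).v (p ν)) _ _
  map_add_le_max' := by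
    intro x y
    obtain ⟨f, rfl⟩ := qm_surj L x
    obtain ⟨g, rfl⟩ := qm_surj L y
    change sz S p (qm L f + qm L g) ≤ max (sz S p (qm L f)) (sz S p (qm L g))
    rw [← map_add, sz_qm, sz_qm, sz_qm, ← ga_max]
    refine ga_le.2 (Eventually.of_forall fun ν => ?_)
    exact ((S ν).v (p ν)).map_add _ _

theorem uval_qm (p : ∀ ν, (S ν).V) (f : ∀ ν, L ν) :
    uval S p (qm L f) = ga fun ν => (S ν).v (p ν) (f ν) := sz_qm S p f

theorem mm_qm (p : ∀ ν, (S ν).V) (f : ∀ ν, L ν) :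
    max 1 (uval S p (qm L f)) = ga fun ν => mm (S ν) (f ν) (p ν) := by
  rw [uval_qm, ← map_one ga, ← ga_max]
  rfl

variable (B : ∀ ν, (S ν).V → ℕ) (hS : ∀ ν, (S ν).IsProd) (hB : ∀ ν, {p | B ν p ≠ 0}.Finite)

/-- the constants -/
noncomputable def uM (p : ∀ ν, (S ν).V) : Ga := ga fun ν => exp (B ν (p ν) : ℤ)

theorem mem_aux (hne : ∀ ν, Nonempty (S ν).V) (s : Finset (Om L)) (C : ℕ) (y : Om L)
    (hs : ∀ b ∈ s, b ∈ kk S B hS hB)
    (h : ∀ p, uval S p y ≤ uM S B p ^ C * ∏ b ∈ s, max 1 (uval S p b) ^ C) :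
    y ∈ kk S B hS hB := by
  classical
  obtain ⟨w, rfl⟩ := qm_surj L y
  choose u hu using fun b => qm_surj L b
  rw [mem_kk]
  refine hbd_of_le hS hB (J := ↥s) (fun b => u b) ?_ C w ?_
  · intro b
    rw [← mem_kk (hS := hS) (hB := hB), hu]
    exact hs b b.2
  by_contra hc
  have h1 := uf_not.2 hc
  have h2 : ∀ ν, ∃ p : (S ν).V, (¬ ∀ p, (S ν).v p (w ν) ≤ exp (B ν p : ℤ) ^ C *
      ∏ b : ↥s, mm (S ν) (u b ν) p ^ C) → ¬ ((S ν).v p (w ν) ≤ exp (B ν p : ℤ) ^ C *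
      ∏ b : ↥s, mm (S ν) (u b ν) p ^ C) := by
    intro ν
    by_cases hν : ∀ p, (S ν).v p (w ν) ≤ exp (B ν p : ℤ) ^ C *
      ∏ b : ↥s, mm (S ν) (u b ν) p ^ C
    · exact ⟨(hne ν).some, fun h => absurd hν h⟩
    · obtain ⟨p, hp⟩ := not_forall.1 hν
      exact ⟨p, fun _ => hp⟩
  choose p hp using h2
  have h3 := h p
  have h4 : uM S B p ^ C * ∏ b ∈ s, max 1 (uval S p b) ^ C =
      ga (fun ν => exp (B ν (p ν) : ℤ) ^ C * ∏ b : ↥s, mm (S ν) (u b ν) (p ν) ^ C) := by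
    have e1 : (fun ν => exp (B ν (p ν) : ℤ) ^ C * ∏ b : ↥s, mm (S ν) (u b ν) (p ν) ^ C) =
        (fun ν => exp (B ν (p ν) : ℤ)) ^ C *
          ∏ b : ↥s, (fun ν => mm (S ν) (u b ν) (p ν)) ^ C := by
      funext ν
      rw [Pi.mul_apply, Pi.pow_apply, Finset.prod_apply]
      rfl
    rw [e1, map_mul, map_pow, map_prod]
    congr 1
    rw [← Finset.prod_coe_sort]
    refine Finset.prod_congr rfl fun b _ => ?_
    rw [map_pow, ← mm_qm, hu]
  rw [h4, uval_qm, ga_le] at h3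
  obtain ⟨ν, h5, h6⟩ := (h1.and h3).exists
  exact hp ν h5 h6

/-- the places of the ultraproduct -/
noncomputable def uSizes (hne : ∀ ν, Nonempty (S ν).V) : Sizes (Om L) (kk S B hS hB) Ga where
  V := ∀ ν, (S ν).V
  v := uval S
  M := uM S B
  one_le p := by
    rw [← map_one ga]
    refine ga_le.2 (Eventually.of_forall fun ν => ?_)
    change (1 : ℤᵐ⁰) ≤ exp (B ν (p ν) : ℤ)
    rw [← exp_zero]
    exact WithZero.exp_le_exp.2 (by positivity)
  mem s C y hs h := mem_aux S B hS hB hne s C y hs h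

theorem hdel_aux {n c : ℕ} {d : Fin c → ℕ} (D : ∀ ν, DSys (L ν) n c d)
    (hBD : ∀ ν, BD (S ν) (D ν) (B ν)) (p : ∀ ν, (S ν).V) (m : Fin c)
    (I : Fin (n + 1) →₀ ℕ) (hI : I.degree = d m) (f : Om L) (hf : uval S p f ≤ 1) :
    uval S p ((omSys D).del m I f) ≤ uM S B p := by
  obtain ⟨g, rfl⟩ := qm_surj L f
  rw [uval_qm, ← map_one ga, ga_le] at hf
  have h1 : (omSys D).del m I (qm L g) = qm L fun ν => (D ν).del m I (g ν) :=
    omD_qm (fun ν => (D ν).del m I) g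
  rw [h1, uval_qm]
  refine ga_le.2 ?_
  filter_upwards [hf] with ν hν
  exact (hBD ν).del (p ν) m I hI (g ν) hν

theorem comm_aux {n c : ℕ} {d : Fin c → ℕ} (D : ∀ ν, DSys (L ν) n c d)
    (hc : ∀ ν, Lines.Comm (D ν)) : Lines.Comm (omSys D) := by
  intro m I m' I' f
  obtain ⟨g, rfl⟩ := qm_surj L f
  have h1 : ∀ m I (g : ∀ ν, L ν), (omSys D).del m I (qm L g) =
      qm L fun ν => (D ν).del m I (g ν) := fun m I g => omD_qm (fun ν => (D ν).del m I) g
  rw [h1, h1, h1, h1]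
  congr 1
  funext ν
  exact hc ν m I m' I' (g ν)

end

end Pool.Agent.T2.H52
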