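import Pool.Agent.Lib.MP_c7af3c_ag.T2.H52.UVals
import Pool.Agent.Lib.MP_c7af3c_ag.T2.H52.Cols
import Pool.Agent.Lib.MP_c7af3c_ag.LINES.H19.Htl
import Pool.Agent.Lib.MP_c7af3c_ag.SHARP.H54.Root

/-!
# MP_c7af3c_ag, project T2, module ULTRA2 (helper52)
-/

set_option autoImplicit false

namespace Pool.Agent.T2.H52

open Filter MvPolynomial WithZero Pool.Agent.Gen Pool.Agent.Sharp Pool.Agent.Edge
open Pool.Agent.Edge.H52

/-- there are places -/
theorem ne_V {L : Type} [Field L] {n : ℕ} (S : PlaceSys L) (B : S.V → ℕ)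
    (x : Fin (n + 1) → L) (ν : ℕ) (h : (ν : ℤ) * tot S B < S.ht x) : Nonempty S.V := by
  by_contra hc
  rw [not_nonempty_iff] at hc
  have h1 : tot S B = 0 := by
    unfold tot
    exact finsum_of_isEmpty _
  have h2 : S.ht x = 0 := by
    unfold PlaceSys.ht
    exact finsum_of_isEmpty _
  rw [h1, h2, mul_zero] at h
  exact lt_irrefl _ h

section

variable {L : ℕ → Type} [∀ ν, Field (L ν)] [∀ ν, CharZero (L ν)] {n c : ℕ} {d : Fin c → ℕ}

theorem line_aux (j0 : Fin (n + 1)) (D : ∀ ν, DSys (L ν) n c d)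
    (x : Fin (n + 1) → ∀ ν, L ν) (S : ∀ ν, PlaceSys (L ν)) (B : ∀ ν, (S ν).V → ℕ)
    (hS : ∀ ν, (S ν).IsProd) (hBD : ∀ ν, BD (S ν) (D ν) (B ν)) (hj0 : ∀ ν, x j0 ν = 1)
    (h0 : ∀ ν m, eval (cv x ν) ((D ν).F m) = 0) (hno : ∀ ν, NoLine (D ν) (cv x ν))
    (hcomm : ∀ ν, Lines.Comm (D ν))
    (hlt : ∀ ν : ℕ, (ν : ℤ) * tot (S ν) (B ν) < (S ν).ht (cv x ν)) (hH : HL5 n c d)
    (y : Fin (n + 1) → Om L) (hy : LinearIndependent (Om L) ![qv x, y]) :
    6 ≤ Module.finrank (Om L) (Lines.SL (omSys D) (qv x) y) := by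
  classical
  obtain ⟨yR, rfl⟩ : ∃ yR : Fin (n + 1) → ∀ ν, L ν, y = qv yR := by
    choose g hg using fun j => qm_surj L (y j)
    exact ⟨g, funext fun j => (hg j).symm⟩
  refine finrank_om D x yR 6 ?_
  by_contra hc
  have h1 := uf_not.2 hc
  have h2 : LinearIndependent (Om L) (fun i => fun j => qm L ((![x, yR] : Fin 2 → _) i j)) := by
    convert hy using 1
    funext i
    fin_cases i <;> rfl
  have h3 := li_om' _ h2
  obtain ⟨C, hC⟩ := hH
  obtain ⟨ν, h4, h5, h6⟩ := (h1.and (h3.and (uf_ge (((∑ m, d m) + 1) * C + 1)))).exists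
  have hli : LinearIndependent (L ν) ![cv x ν, cv yR ν] := by
    convert h5 using 1
    funext i
    fin_cases i <;> rfl
  have h7 := hC (L ν) (D ν) (hcomm ν) (cv x ν) (cv yR ν) hli (h0 ν) (by omega) (S ν) (hS ν)
    (B ν) (hBD ν)
  obtain ⟨m, hm⟩ := hno ν (cv yR ν) hli
  have hroot := H54.root (S ν) (hS ν) (D ν) (B ν) (hBD ν) hli (j0 := j0) (hj0 ν) m (h0 ν m) hm
  have hdm : ((d m : ℕ) : ℤ) ≤ ((∑ m, d m : ℕ) : ℤ) := by
    exact_mod_cast Finset.single_le_sum (f := d) (fun _ _ => Nat.zero_le _)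
      (Finset.mem_univ m)
  have hnn := Lines.H19.hL_nonneg (cv x ν) (cv yR ν) (S ν) (hS ν) hli
  have htn := tot_nn (S ν) (B ν)
  have k2 : ((d m : ℤ) + 1) * hL (S ν) (cv x ν) (cv yR ν) ≤
      (((∑ m, d m : ℕ) : ℤ) + 1) * (C * tot (S ν) (B ν)) := by
    calc ((d m : ℤ) + 1) * hL (S ν) (cv x ν) (cv yR ν) ≤
        (((∑ m, d m : ℕ) : ℤ) + 1) * hL (S ν) (cv x ν) (cv yR ν) :=
          mul_le_mul_of_nonneg_right (by linarith) hnn
      _ ≤ _ := mul_le_mul_of_nonneg_left h7 (by positivity)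
  have k3 : ((((∑ m, d m) + 1) * C + 1 : ℕ) : ℤ) * tot (S ν) (B ν) ≤
      (ν : ℤ) * tot (S ν) (B ν) := mul_le_mul_of_nonneg_right (by exact_mod_cast h6) htn
  have k4 : ((((∑ m, d m) + 1) * C + 1 : ℕ) : ℤ) * tot (S ν) (B ν) =
      (((∑ m, d m : ℕ) : ℤ) + 1) * (C * tot (S ν) (B ν)) + tot (S ν) (B ν) := by
    push_cast
    ring
  have := hlt ν
  linarith

theorem ultra2_aux (j0 : Fin (n + 1)) (D : ∀ ν, DSys (L ν) n c d)
    (x : Fin (n + 1) → ∀ ν, L ν) (S : ∀ ν, PlaceSys (L ν)) (B : ∀ ν, (S ν).V → ℕ)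
    (hS : ∀ ν, (S ν).IsProd) (hBD : ∀ ν, BD (S ν) (D ν) (B ν)) (hj0 : ∀ ν, x j0 ν = 1)
    (h0 : ∀ ν m, eval (cv x ν) ((D ν).F m) = 0) (hno : ∀ ν, NoLine (D ν) (cv x ν))
    (hcomm : ∀ ν, Lines.Comm (D ν))
    (hlt : ∀ ν : ℕ, (ν : ℤ) * tot (S ν) (B ν) < (S ν).ht (cv x ν)) (hH : HL5 n c d)
    (hne : ∀ ν, Nonempty (S ν).V) :
    Sit (uSizes S B hS (fun ν => (hBD ν).fin) hne) (omSys D) (qv x) j0 := by
  have hB : ∀ ν, {p | B ν p ≠ 0}.Finite := fun ν => (hBD ν).fin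
  constructor
  · change qm L (x j0) = 1
    rw [← map_one (qm L)]
    congr 1
    funext ν
    exact hj0 ν
  · intro m
    rw [omSys_F, eval_om, qm_zero]
    refine Eventually.of_forall fun ν => ?_
    rw [map_ev_FR]
    exact h0 ν m
  · exact comm_aux D hcomm
  · exact fun m I => edge_kF D S hS B hBD hB m I
  · exact fun z p hp hk hz => kk_alg z p hp hk hz
  · exact edge_xk x j0 S hS B hB hj0 hlt
  · exact edge_hno D x hno
  · exact fun p m I hI f hf => hdel_aux S B D hBD p m I hI f hf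
  · exact fun y hy => line_aux j0 D x S B hS hBD hj0 h0 hno hcomm hlt hH y hy

end

/-- Module ULTRA2. -/
theorem ultra2 : Ultra2Statement := by
  intro n c d j0 hH hHB
  obtain ⟨E⟩ : Nonempty (∀ A, CE n c d j0 A) := ⟨fun A => (exists_CE hHB A).some⟩
  let iL : ∀ ν, Field ((fun ν => (E ν).L) ν) := fun ν => (E ν).fld
  have iC : ∀ ν, CharZero ((fun ν => (E ν).L) ν) := fun ν => (E ν).chz
  have hne : ∀ ν, Nonempty (E ν).S.V := fun ν =>
    @ne_V (E ν).L (E ν).fld n (E ν).S (E ν).B (E ν).x ν (E ν).lt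
  exact ⟨Om (fun ν => (E ν).L), inferInstance, inferInstance, _, Ga, inferInstance, _, _, _,
    ultra2_aux j0 (L := fun ν => (E ν).L) (fun ν => (E ν).D)
      (fun j ν => (E ν).x j) (fun ν => (E ν).S) (fun ν => (E ν).B) (fun ν => (E ν).hS)
      (fun ν => (E ν).hB) (fun ν => (E ν).hj0) (fun ν => (E ν).h0) (fun ν => (E ν).hno)
      (fun ν => (E ν).comm) (fun ν => (E ν).lt) hH hne⟩

end Pool.Agent.T2.H52
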